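import Pool.Agent.L0h87.LE.StmH

/-!
# LE.AVG (helper4): the average of the truncated heights
-/

set_option autoImplicit false

namespace Pool.Agent.L0h4.LE

open Finset Filter Topology
open Pool.Agent.L0h87.LE

theorem norm_ee (t : ℝ) : ‖ee t‖ = 1 := by
  have h : (2 * Real.pi * Complex.I * t : ℂ) = ((2 * Real.pi * t : ℝ) : ℂ) * Complex.I := by
    push_cast; ring
  rw [ee, h, Complex.norm_exp_ofReal_mul_I]

theorem norm_S_le (f : ℕ → ℝ) (N : ℕ) (α : ℝ) : ‖S f N α‖ ≤ ∑ n ∈ odds N, |f n| := by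
  refine (norm_sum_le _ _).trans (Finset.sum_le_sum fun n _ => ?_)
  rw [norm_mul, norm_ee, mul_one, Complex.norm_real, Real.norm_eq_abs]

theorem S_decomp (f g r : ℕ → ℝ) (t : ℝ) (N : ℕ) (α : ℝ) (hf : ∀ n, f n = g n + t * r n) :
    S f N α = S g N α + (t : ℂ) * S r N α := by
  unfold S
  rw [Finset.mul_sum, ← Finset.sum_add_distrib]
  refine Finset.sum_congr rfl fun n _ => ?_
  rw [hf n]
  push_cast
  ring

/-- the estimate for one integer -/
theorem point (x : ℕ∞) (Λ c η ρ ε L : ℝ) (N n : ℕ) (hc : 0 < c) (hΛ : c < Λ) (hL : L = Real.log N) (hL0 : 0 < L)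
    (hρ : 0 < ρ) (hη0 : 0 < η) (hη : η ≤ ε / 8) (hη' : η ≤ (Λ - c) / 2) (h1 : 1 ≤ ε / 4 * L)
    (h2 : (c + η) * |Real.log ρ| ≤ ε / 8 * L) (hn : 1 ≤ n) (hnN : n ≤ N) (E : Prop)
    (hE : ¬ E → x ≠ ⊤ → ∃ k : ℕ, x = k ∧ |(k : ℝ) - c * Real.log n| ≤ η * Real.log n)
    (ind : ℝ) (hi1 : x = ⊤ → ind = 1) (hi0 : x ≠ ⊤ → ind = 0) (a b : ℝ) (ha : 0 ≤ a) (hb : 0 ≤ b)
    (hρn : (n : ℝ) ≤ ρ * N → a = Λ) (hEb : E → b = Λ) :
    |((min x (⌊Λ * L⌋₊ : ℕ∞)).toNat : ℝ) / L - (c + (Λ - c) * ind)| ≤ ε / 4 + a + b := by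
  have hε : 0 ≤ ε / 4 := by linarith
  have hΛ0 : 0 < Λ := hc.trans hΛ
  have hfl : (⌊Λ * L⌋₊ : ℝ) ≤ Λ * L := Nat.floor_le (by positivity)
  have hfl' : Λ * L < (⌊Λ * L⌋₊ : ℝ) + 1 := Nat.lt_floor_add_one _
  by_cases hx : x = ⊤
  · rw [hi1 hx, hx]
    have h3 : (min (⊤ : ℕ∞) (⌊Λ * L⌋₊ : ℕ∞)).toNat = ⌊Λ * L⌋₊ := by
      rw [min_eq_right le_top]; rfl
    rw [h3]
    have h4 : |(⌊Λ * L⌋₊ : ℝ) / L - (c + (Λ - c) * 1)| ≤ ε / 4 := by
      have h5 : (⌊Λ * L⌋₊ : ℝ) / L - (c + (Λ - c) * 1) = ((⌊Λ * L⌋₊ : ℝ) - Λ * L) / L := by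
        field_simp
        ring
      rw [h5, abs_div, abs_of_pos hL0, div_le_iff₀ hL0, abs_le]
      constructor <;> linarith
    linarith
  · obtain ⟨k, rfl⟩ := ENat.ne_top_iff_exists.1 hx
    rw [hi0 hx]
    have h3 : (min (k : ℕ∞) (⌊Λ * L⌋₊ : ℕ∞)).toNat = min k ⌊Λ * L⌋₊ := by
      rcases le_total k ⌊Λ * L⌋₊ with h4 | h4
      · rw [min_eq_left h4, min_eq_left (by exact_mod_cast h4)]; rfl
      · rw [min_eq_right h4, min_eq_right (by exact_mod_cast h4)]; rfl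
    rw [h3, mul_zero, add_zero]
    -- the trivial bound
    have h0 : 0 ≤ ((min k ⌊Λ * L⌋₊ : ℕ) : ℝ) / L := by positivity
    have h0' : ((min k ⌊Λ * L⌋₊ : ℕ) : ℝ) / L ≤ Λ := by
      rw [div_le_iff₀ hL0]
      refine le_trans ?_ hfl
      exact_mod_cast min_le_right _ _
    have htriv : |((min k ⌊Λ * L⌋₊ : ℕ) : ℝ) / L - c| ≤ Λ := by
      rw [abs_le]; constructor <;> linarith
    by_cases hE0 : E
    · rw [hEb hE0]; linarith
    by_cases hρ0 : (n : ℝ) ≤ ρ * N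
    · rw [hρn hρ0]; linarith
    obtain ⟨k', hk', hk⟩ := hE hE0 hx
    have hkk : k = k' := by exact_mod_cast hk'
    subst hkk
    push Not at hρ0
    have hN0 : (0 : ℝ) < N := by
      have : 0 < N := by omega
      exact_mod_cast this
    have hn0 : (0 : ℝ) < n := by exact_mod_cast hn
    have hlog1 : Real.log ρ + L ≤ Real.log n := by
      rw [hL, ← Real.log_mul hρ.ne' hN0.ne']
      exact Real.log_le_log (by positivity) hρ0.le
    have hlog2 : Real.log n ≤ L := by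
      rw [hL]
      exact Real.log_le_log hn0 (by exact_mod_cast hnN)
    have hlog0 : 0 ≤ Real.log n := Real.log_nonneg (by exact_mod_cast hn)
    have habs := abs_le.1 hk
    have hlr := neg_abs_le (Real.log ρ)
    have hk1 : (k : ℝ) ≤ (c + η) * L := by nlinarith
    have hk2 : c * L - η * L - (c + η) * |Real.log ρ| ≤ k := by nlinarith
    have hkf : k ≤ ⌊Λ * L⌋₊ := by
      apply Nat.le_floor
      nlinarith
    rw [min_eq_left hkf]
    have h4 : |(k : ℝ) / L - c| ≤ ε / 4 := by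
      have h5 : (k : ℝ) / L - c = ((k : ℝ) - c * L) / L := by
        field_simp
      rw [h5, abs_div, abs_of_pos hL0, div_le_iff₀ hL0, abs_le]
      constructor <;> nlinarith
    linarith

theorem AVG : Pool.Agent.L0h87.LE.AVG := by
  intro h δ hFU hd1 hd2 Λ hΛ ε hε
  obtain ⟨ind, hF, hi⟩ : ∃ ind : ℕ → ℝ, FU (fun n => ind n - (1 - δ)) ∧
      ∀ n, (h n = ⊤ → ind n = 1) ∧ (h n ≠ ⊤ → ind n = 0) := by
    refine ⟨_, hFU, fun n => ⟨fun hn => by simp [hn], fun hn => by simp [hn]⟩⟩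
  classical
  set c : ℝ := 2 / Real.log (16 / 9) with hc
  have hc0 : 0 < c := div_pos two_pos (Real.log_pos (by norm_num))
  have hΛ0 : 0 < Λ := hc0.trans hΛ
  have hΛc : 0 < Λ - c := by linarith
  set η : ℝ := min (ε / 8) ((Λ - c) / 2) with hη
  have hη0 : 0 < η := lt_min (by positivity) (by positivity)
  set ρ : ℝ := ε / (4 * Λ) with hρ
  have hρ0 : 0 < ρ := by positivity
  obtain ⟨N₁, hN₁⟩ := hF (ε / (4 * (Λ - c))) (by positivity)
  -- the exceptional integers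
  set E : ℕ → Prop := fun m => h m ≠ ⊤ ∧ ¬ ∃ k : ℕ, h m = k ∧ |(k : ℝ) - c * Real.log m| ≤ η * Real.log m with hE
  have hex : ∃ N₂ : ℕ, ∀ N : ℕ, N₂ ≤ N → (((odds N).filter E).card : ℝ) ≤ ε / (4 * Λ) * N := by
    have hd := (hd1.sub (hd2 η hη0)).eventually (gt_mem_nhds (show δ - δ < ε / (2 * Λ) by
      rw [sub_self]; positivity))
    obtain ⟨N₂, hN₂⟩ := eventually_atTop.1 (hd.and (eventually_ge_atTop 1))
    refine ⟨N₂, fun N hN => ?_⟩
    obtain ⟨h3, h4⟩ := hN₂ N hN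
    have hNp : (0 : ℝ) < N := by exact_mod_cast h4
    set A : Set ℕ := {m : ℕ | m ≤ N ∧ Odd m ∧ h m ≠ ⊤} with hA
    set B : Set ℕ := {m : ℕ | m ≤ N ∧ Odd m ∧ ∃ k : ℕ, h m = k ∧ |(k : ℝ) - c * Real.log m| ≤ η * Real.log m} with hB
    have hAf : A.Finite := (Set.finite_Iic N).subset fun m hm => hm.1
    have hBA : B ⊆ A := by
      rintro m ⟨h5, h6, k, hk, -⟩
      exact ⟨h5, h6, by rw [hk]; exact ENat.natCast_ne_top k⟩
    have hsub : (((odds N).filter E : Finset ℕ) : Set ℕ) ⊆ A \ B := by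
      intro m hm
      simp only [coe_filter, odds, mem_filter, mem_Icc, Set.mem_ofPred_eq] at hm
      obtain ⟨⟨⟨h5, h6⟩, h7⟩, h8, h9⟩ := hm
      exact ⟨⟨h6, Nat.odd_iff.2 h7, h8⟩, fun h10 => h9 h10.2.2⟩
    have hcard : ((odds N).filter E).card ≤ A.ncard - B.ncard := by
      rw [← Set.ncard_coe_finset, ← Set.ncard_sdiff hBA (hAf.subset hBA)]
      exact Set.ncard_le_ncard hsub (hAf.subset Set.sdiff_subset)
    have hBle : B.ncard ≤ A.ncard := Set.ncard_le_ncard hBA hAf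
    have hcard' : (((odds N).filter E).card : ℝ) ≤ (A.ncard : ℝ) - B.ncard := by
      rw [← Nat.cast_sub hBle]
      exact_mod_cast hcard
    have h3' : 2 / (N : ℝ) * (A.ncard : ℝ) - 2 / (N : ℝ) * (B.ncard : ℝ) < ε / (2 * Λ) := h3
    rw [← mul_sub] at h3'
    refine hcard'.trans ?_
    have h5 : (A.ncard : ℝ) - B.ncard = (2 / (N : ℝ) * ((A.ncard : ℝ) - B.ncard)) * (N / 2) := by
      field_simp
    rw [h5]
    have h6 : ε / (4 * Λ) * N = ε / (2 * Λ) * (N / 2) := by ring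
    rw [h6]
    exact mul_le_mul_of_nonneg_right h3'.le (by positivity)
  obtain ⟨N₂, hN₂⟩ := hex
  -- large `log N`
  have hlog : Tendsto (fun N : ℕ => Real.log (N : ℝ)) atTop atTop :=
    Real.tendsto_log_atTop.comp tendsto_natCast_atTop_atTop
  obtain ⟨N₃, hN₃⟩ := eventually_atTop.1 (hlog.eventually_ge_atTop
    (max 1 (max (4 / ε) (8 / ε * ((c + η) * |Real.log ρ|)))))
  refine ⟨max N₁ (max N₂ N₃), fun N hN α => ?_⟩
  have g1 : N₁ ≤ N := (le_max_left _ _).trans hN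
  have g2 : N₂ ≤ N := ((le_max_left _ _).trans (le_max_right _ _)).trans hN
  have g3 : N₃ ≤ N := ((le_max_right _ _).trans (le_max_right _ _)).trans hN
  have hL := hN₃ N g3
  set L : ℝ := Real.log N with hLdef
  have hL1 : 1 ≤ L := (le_max_left _ _).trans hL
  have hL2 : 4 / ε ≤ L := ((le_max_left _ _).trans (le_max_right _ _)).trans hL
  have hL3 : 8 / ε * ((c + η) * |Real.log ρ|) ≤ L := ((le_max_right _ _).trans (le_max_right _ _)).trans hL
  have k1 : 1 ≤ ε / 4 * L := by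
    rw [div_le_iff₀ hε] at hL2
    linarith
  have k2 : (c + η) * |Real.log ρ| ≤ ε / 8 * L := by
    have h3 : (c + η) * |Real.log ρ| = ε / 8 * (8 / ε * ((c + η) * |Real.log ρ|)) := by
      field_simp
    rw [h3]
    exact mul_le_mul_of_nonneg_left hL3 (by positivity)
  have hdec := S_decomp (fun m => ((min (h m) (⌊Λ * L⌋₊ : ℕ∞)).toNat : ℝ) / L - (δ * c + (1 - δ) * Λ))
    (fun m => ((min (h m) (⌊Λ * L⌋₊ : ℕ∞)).toNat : ℝ) / L - (c + (Λ - c) * ind m))
    (fun m => ind m - (1 - δ)) (Λ - c) N α (fun n => by ring)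
  rw [hdec]
  refine (norm_add_le _ _).trans ?_
  have m2 : ‖((Λ - c : ℝ) : ℂ) * S (fun m => ind m - (1 - δ)) N α‖ ≤ ε / 4 * N := by
    rw [norm_mul, Complex.norm_real, Real.norm_eq_abs, abs_of_pos hΛc]
    refine (mul_le_mul_of_nonneg_left (hN₁ N g1 α) hΛc.le).trans (le_of_eq ?_)
    field_simp
  have m1 : ‖S (fun m => ((min (h m) (⌊Λ * L⌋₊ : ℕ∞)).toNat : ℝ) / L - (c + (Λ - c) * ind m)) N α‖ ≤
      3 * (ε / 4) * N := by
    refine (norm_S_le _ _ _).trans ?_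
    have hsum : ∑ n ∈ odds N, |((min (h n) (⌊Λ * L⌋₊ : ℕ∞)).toNat : ℝ) / L - (c + (Λ - c) * ind n)| ≤
        ∑ n ∈ odds N, (ε / 4 + (if (n : ℝ) ≤ ρ * N then Λ else 0) + (if E n then Λ else 0)) := by
      refine Finset.sum_le_sum fun n hn => ?_
      have hn' := mem_Icc.1 (mem_filter.1 hn).1
      refine point (h n) Λ c η ρ ε L N n hc0 hΛ hLdef (by linarith) hρ0 hη0 (min_le_left _ _) (min_le_right _ _)
        k1 k2 hn'.1 hn'.2 (E n) ?_ (ind n) (hi n).1 (hi n).2 _ _ ?_ ?_ ?_ ?_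
      · intro h5 h6
        by_contra h7
        exact h5 ⟨h6, h7⟩
      · split_ifs <;> linarith
      · split_ifs <;> linarith
      · intro h5; rw [if_pos h5]
      · intro h5; rw [if_pos h5]
    refine hsum.trans ?_
    rw [Finset.sum_add_distrib, Finset.sum_add_distrib, Finset.sum_const, ← Finset.sum_filter, ← Finset.sum_filter,
      Finset.sum_const, Finset.sum_const, nsmul_eq_mul, nsmul_eq_mul, nsmul_eq_mul]
    have c1 : ((odds N).card : ℝ) ≤ N := by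
      have : (odds N).card ≤ N := (Finset.card_filter_le _ _).trans (by simp)
      exact_mod_cast this
    have c2 : (((odds N).filter (fun n : ℕ => (n : ℝ) ≤ ρ * N)).card : ℝ) ≤ ρ * N := by
      have h5 : (odds N).filter (fun n : ℕ => (n : ℝ) ≤ ρ * N) ⊆ Icc 1 ⌊ρ * N⌋₊ := by
        intro n hn
        obtain ⟨h6, h7⟩ := mem_filter.1 hn
        exact mem_Icc.2 ⟨(mem_Icc.1 (mem_filter.1 h6).1).1, Nat.le_floor h7⟩
      have h6 := Finset.card_le_card h5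
      rw [Nat.card_Icc, Nat.add_sub_cancel] at h6
      exact (Nat.cast_le.2 h6).trans (Nat.floor_le (by positivity))
    have c3 := hN₂ N g2
    have d1 : ((odds N).card : ℝ) * (ε / 4) ≤ N * (ε / 4) := mul_le_mul_of_nonneg_right c1 (by positivity)
    have d2 : (((odds N).filter (fun n : ℕ => (n : ℝ) ≤ ρ * N)).card : ℝ) * Λ ≤ ε / 4 * N := by
      refine (mul_le_mul_of_nonneg_right c2 hΛ0.le).trans (le_of_eq ?_)
      rw [hρ]; field_simp
    have d3 : (((odds N).filter E).card : ℝ) * Λ ≤ ε / 4 * N := by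
      refine (mul_le_mul_of_nonneg_right c3 hΛ0.le).trans (le_of_eq ?_)
      field_simp
    linarith
  linarith

end Pool.Agent.L0h4.LE
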